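import Pool.Agent.R606.CO.Main

/-!
# Equality of coded open sets is `Π⁰₂` whenever it is Borel

Let `X` be a second countable space, `U 0, U 1, …` an enumeration of a countable basis.  A point
`x` of the Baire space codes the open set `⋃ n, U (x n)`.  No separation axiom is assumed.

Idea of the proof.  It suffices that for every `m` the set `C` of the codes of the open sets
containing `U m` is `G_δ`; it is Borel.  If it is not `G_δ`, then by the method of Hurewicz there
are points `b t` of `C`, for all finite sequences `t`, with `b (t ⌢ n ⌢ …) → b t` for `n → ∞`, such
that `b t` converges to a point outside of `C` along every infinite branch.  Intersections of coded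
open sets over compact sets of codes are open, since finitely many indices suffice at every
point, and can be coded in a Borel way.  So to a tree `T` one can assign in a Borel way a code of
an open set which contains `U m` if and only if `T` is well-founded.  But the set of well-founded
trees is not Borel.
-/

set_option autoImplicit false

namespace Pool.Agent.Results.MP_e9e8de_lc.BorelImpliesPiTwo

open Set TopologicalSpace MeasureTheory

universe u

/-- The relation `E` of `X` and `U`: two points of the Baire space are related when they code the
same open set, where `x` codes the open set `⋃ n, U (x n)`. -/
def CodeEq {X : Type u} (U : ℕ → Set X) : Set ((ℕ → ℕ) × (ℕ → ℕ)) :=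
  {p | ⋃ n, U (p.1 n) = ⋃ n, U (p.2 n)}

/-- For every second countable topological space `X` and every enumeration `U` of a countable basis
of `X`: if the equivalence relation on the Baire space of coding the same open set is a Borel set,
then it is a `Π⁰₂` set (a countable intersection of open sets). -/
theorem result (X : Type u) [TopologicalSpace X] (U : ℕ → Set X)
    (hU : IsTopologicalBasis (Set.range U))
    (hE : MeasurableSet[borel ((ℕ → ℕ) × (ℕ → ℕ))] (CodeEq U)) : IsGδ (CodeEq U) := by
  have h : (borel ((ℕ → ℕ) × (ℕ → ℕ))) = (inferInstance : MeasurableSpace ((ℕ → ℕ) × (ℕ → ℕ))) :=
    (BorelSpace.measurable_eq).symm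
  rw [h] at hE
  exact Pool.Agent.R606.CO.isGδ_sameOpen hU hE

end Pool.Agent.Results.MP_e9e8de_lc.BorelImpliesPiTwo
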